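import Pool.Agent.Y342.SK.Core

/-!
# Doubly regular tournaments on `2 ^ t * q - 1` vertices for every `q`

There is a constant `C` such that for all natural numbers `n`, `q > 0` and `t` with `q ≤ 2 ↑↑ n` (the
power tower of `n` twos, `1` for `n = 0`) and `t ≥ 2 ^ C ^ (n + 1)` there is a doubly regular
tournament on `2 ^ t * q - 1` vertices (equivalently a skew-Hadamard matrix of order `2 ^ t * q`).

So for every odd `q` there are doubly regular tournaments on `2 ^ t * q - 1` vertices for all large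
`t`, and `t ≥ 2 ^ C ^ (1 + log* q)` suffices.
-/

namespace Pool.Agent.Results.MP_d4e25a_co.AsymptoticExistence

theorem result : ∃ C : ℕ, ∀ n q t : ℕ, 0 < q → q ≤ (fun x : ℕ => 2 ^ x)^[n] 1 →
    2 ^ C ^ (n + 1) ≤ t →
    ∃ R : Fin (2 ^ t * q - 1) → Fin (2 ^ t * q - 1) → Prop,
      (∀ i, ¬ R i i) ∧
      (∀ i j, i ≠ j → (R i j ↔ ¬ R j i)) ∧
      ∃ m : ℕ, ∀ i j, i ≠ j → {k : Fin (2 ^ t * q - 1) | R i k ∧ R j k}.ncard = m := by
  obtain ⟨C, _, h⟩ := Pool.Agent.Y342.SK.main_drt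
  exact ⟨C, fun n q t hq hqn ht => h n q t hq hqn ht⟩

end Pool.Agent.Results.MP_d4e25a_co.AsymptoticExistence
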